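import Mathlib

/-! MP_091941_lc: flowchart complexity measures; definitions and statements of the parts.
Complete proofs: Pool/Agent/R556/FC/NOTES.md. -/

set_option autoImplicit false

open Filter

namespace R556.FC

/-- An interpretation: a set of functions and a set of predicates of finite arity on `ℕ`. -/
structure Interp where
  funs : Set (Σ k : ℕ, (Fin k → ℕ) → ℕ)
  preds : Set (Σ k : ℕ, (Fin k → ℕ) → Bool)

/-- Instructions of a flowchart over `F` with program variables `Var` and nodes `Node`. -/
inductive Instr (F : Interp) (Var Node : Type) : Type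
  | op (k : ℕ) (f : (Fin k → ℕ) → ℕ) (hf : (⟨k, f⟩ : Σ k : ℕ, (Fin k → ℕ) → ℕ) ∈ F.funs)
      (args : Fin k → Var) (dst : Var) (next : Node)
  | test (k : ℕ) (p : (Fin k → ℕ) → Bool)
      (hp : (⟨k, p⟩ : Σ k : ℕ, (Fin k → ℕ) → Bool) ∈ F.preds)
      (args : Fin k → Var) (yes no : Node)
  | halt (out : Var)

/-- `Run I q σ y T`: the computation which starts at the node `q` with the values `σ` of the program
variables halts after exactly `T` node executions (the halt node included) with output `y`. -/
inductive Run {F : Interp} {Var Node : Type} (I : Node → Instr F Var Node) :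
    Node → (Var → ℕ) → ℕ → ℕ → Prop
  | halt (q : Node) (σ : Var → ℕ) (out : Var) (h : I q = .halt out) : Run I q σ (σ out) 1
  | op (q : Node) (σ σ' : Var → ℕ) (k : ℕ) (f : (Fin k → ℕ) → ℕ)
      (hf : (⟨k, f⟩ : Σ k : ℕ, (Fin k → ℕ) → ℕ) ∈ F.funs) (args : Fin k → Var) (dst : Var)
      (next : Node) (y T : ℕ) (h : I q = .op k f hf args dst next)
      (h1 : σ' dst = f (fun i => σ (args i))) (h2 : ∀ v, v ≠ dst → σ' v = σ v)
      (hr : Run I next σ' y T) : Run I q σ y (T + 1)
  | yes (q : Node) (σ : Var → ℕ) (k : ℕ) (p : (Fin k → ℕ) → Bool)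
      (hp : (⟨k, p⟩ : Σ k : ℕ, (Fin k → ℕ) → Bool) ∈ F.preds) (args : Fin k → Var)
      (yes no : Node) (y T : ℕ) (h : I q = .test k p hp args yes no)
      (h1 : p (fun i => σ (args i)) = true) (hr : Run I yes σ y T) : Run I q σ y (T + 1)
  | no (q : Node) (σ : Var → ℕ) (k : ℕ) (p : (Fin k → ℕ) → Bool)
      (hp : (⟨k, p⟩ : Σ k : ℕ, (Fin k → ℕ) → Bool) ∈ F.preds) (args : Fin k → Var)
      (yes no : Node) (y T : ℕ) (h : I q = .test k p hp args yes no)
      (h1 : p (fun i => σ (args i)) = false) (hr : Run I no σ y T) : Run I q σ y (T + 1)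

/-- A flowchart over `F`: finitely many program variables and nodes, an input variable and the
successor `first` of the start node. -/
structure Flowchart (F : Interp) where
  Var : Type
  Node : Type
  finVar : Finite Var
  finNode : Finite Node
  inp : Var
  first : Node
  instr : Node → Instr F Var Node

/-- The computation of the flowchart `P` on input `x` halts with output `y` and has length `T`
(the start node is executed once; the input variable starts with the value `x`, all other program
variables with the value `0`). -/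
def Comp {F : Interp} (P : Flowchart F) (x y T : ℕ) : Prop :=
  ∃ (σ : P.Var → ℕ) (T' : ℕ), σ P.inp = x ∧ (∀ v, v ≠ P.inp → σ v = 0) ∧ T = T' + 1 ∧
    Run P.instr P.first σ y T'

/-- `F` is universal: every unary partial recursive function is computed by a flowchart. -/
def Universal (F : Interp) : Prop :=
  ∀ f : ℕ →. ℕ, Nat.Partrec f → ∃ P : Flowchart F, ∀ x y, y ∈ f x ↔ ∃ T, Comp P x y T

/-- The complexity class `Φ(t)` of the flowchart measure of `F`. -/
def Cls (F : Interp) (t : ℕ → ℕ) : Set (ℕ → ℕ) :=
  {f | ∃ P : Flowchart F, (∀ x, ∃ T, Comp P x (f x) T) ∧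
    ∀ᶠ x in atTop, ∃ T ≤ t x, Comp P x (f x) T}

/-- The flowchart measure of `F` is finitely invariant. -/
def FinitelyInvariant (F : Interp) : Prop :=
  ∀ f g t : ℕ → ℕ, Computable f → Computable g → Computable t → f ∈ Cls F t →
    (∀ᶠ x in atTop, f x = g x) → g ∈ Cls F t

/-- FC-U: there is a finite universal interpretation with recursive functions and predicates. -/
def StmU : Prop :=
  ∃ F : Interp, F.funs.Finite ∧ F.preds.Finite ∧ (∀ f ∈ F.funs, Computable f.2) ∧
    (∀ p ∈ F.preds, Computable p.2) ∧ Universal F

/-- FC-D: determinism. -/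
def StmD : Prop :=
  (∀ (F : Interp) (Var Node : Type) (I : Node → Instr F Var Node) (q : Node) (σ : Var → ℕ)
    (y y' T T' : ℕ), Run I q σ y T → Run I q σ y' T' → y = y' ∧ T = T') ∧
  ∀ (F : Interp) (P : Flowchart F) (x y y' T T' : ℕ), Comp P x y T → Comp P x y' T' →
    y = y' ∧ T = T'

/-- the flowchart never writes into its input variable -/
def KeepsInput {F : Interp} (P : Flowchart F) : Prop :=
  ∀ q k f hf args dst next, P.instr q = .op k f hf args dst next → dst ≠ P.inp

/-- FC-K: one may assume that a flowchart never writes into its input variable. -/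
def StmK : Prop :=
  ∀ (F : Interp) (P : Flowchart F), ∃ P' : Flowchart F, KeepsInput P' ∧
    ∀ x y T, Comp P x y T ↔ Comp P' x y T

/-- FC-P: changing one value of a function costs nothing if `t → ∞`. -/
def StmP : Prop :=
  ∀ (F : Interp), Universal F → ∀ (f t : ℕ → ℕ) (x₀ y₀ : ℕ), Tendsto t atTop atTop → f ∈ Cls F t →
    Function.update f x₀ y₀ ∈ Cls F t

end R556.FC
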