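import Pool.Agent.R556.FC.Defs

/-! MP_091941_lc: the negative part (t = 2) and the reduction of the positive part to `StmP`. -/

set_option autoImplicit false

open Filter

namespace R556.FC

/-- the flowchart `start → halt (input)` -/
def idChart (F : Interp) : Flowchart F where
  Var := Unit
  Node := Unit
  finVar := inferInstance
  finNode := inferInstance
  inp := ()
  first := ()
  instr := fun _ => .halt ()

lemma comp_id (F : Interp) (x : ℕ) : Comp (idChart F) x x 2 := by
  refine ⟨fun _ => x, 1, rfl, fun v hv => absurd rfl hv, rfl, ?_⟩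
  exact Run.halt (F := F) (I := (idChart F).instr) () (fun _ => x) () rfl

lemma id_mem (F : Interp) : (fun x : ℕ => x) ∈ Cls F (fun _ => 2) := by
  refine ⟨idChart F, fun x => ⟨2, comp_id F x⟩, Eventually.of_forall fun x => ⟨2, le_rfl, comp_id F x⟩⟩

lemma run_pos {F : Interp} {Var Node : Type} {I : Node → Instr F Var Node} {q : Node}
    {σ : Var → ℕ} {y T : ℕ} (h : Run I q σ y T) : 1 ≤ T := by
  cases h <;> omega

lemma run_one {F : Interp} {Var Node : Type} {I : Node → Instr F Var Node} {q : Node}
    {σ : Var → ℕ} {y T : ℕ} (h : Run I q σ y T) (hT : T ≤ 1) :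
    ∃ out, I q = .halt out ∧ σ out = y := by
  cases h
  case halt out h => exact ⟨out, h, rfl⟩
  all_goals
    exfalso
    rename_i hr
    have := run_pos hr
    omega

lemma run_halt {F : Interp} {Var Node : Type} {I : Node → Instr F Var Node} {q : Node}
    {σ : Var → ℕ} {y T : ℕ} (h : Run I q σ y T) {out : Var} (ho : I q = .halt out) :
    σ out = y := by
  cases h
  all_goals simp_all

/-- the function `0 ↦ 1`, `x ↦ x` for `x ≠ 0` -/
def gg : ℕ → ℕ := fun x => if x = 0 then 1 else x

lemma gg_computable : Computable gg := by
  apply Primrec.to_comp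
  exact Primrec.ite (Primrec.eq.comp Primrec.id (Primrec.const 0)) (Primrec.const 1) Primrec.id

lemma gg_notMem (F : Interp) : gg ∉ Cls F (fun _ => 2) := by
  rintro ⟨P, hP, hev⟩
  obtain ⟨x, hx⟩ := (hev.and (eventually_ge_atTop 2)).exists
  obtain ⟨⟨T, hT, σ, T', h1, h2, h3, hr⟩, hx2⟩ := hx
  have hT2 : T' ≤ 1 := by simp only at hT; omega
  obtain ⟨out, ho, hy⟩ := run_one hr hT2
  have hgx : gg x = x := by unfold gg; rw [if_neg (by omega)]
  have hout : out = P.inp := by
    by_contra hne
    rw [h2 out hne, hgx] at hy
    omega
  subst hout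
  obtain ⟨T0, σ0, T0', k1, k2, k3, kr⟩ := hP 0
  have := run_halt kr ho
  rw [k1] at this
  simp [gg] at this

/-- no flowchart measure is finitely invariant -/
theorem not_finInv (F : Interp) : ¬ FinitelyInvariant F := by
  intro h
  refine gg_notMem F (h (fun x => x) gg (fun _ => 2) Computable.id gg_computable
    (Computable.const 2) (id_mem F) ?_)
  filter_upwards [eventually_ge_atTop 1] with x hx
  unfold gg
  rw [if_neg (by omega)]

/-- from one point to finitely many points -/
theorem pos_of_P (hP : StmP) (F : Interp) (hU : Universal F) (f g t : ℕ → ℕ)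
    (ht : Tendsto t atTop atTop) (hf : f ∈ Cls F t) (hfg : ∀ᶠ x in atTop, f x = g x) :
    g ∈ Cls F t := by
  obtain ⟨N, hN⟩ := eventually_atTop.1 hfg
  -- h n agrees with g below n and with f from n on
  have key : ∀ n : ℕ, (fun x => if x < n then g x else f x) ∈ Cls F t := by
    intro n
    induction n with
    | zero => simpa using hf
    | succ n ih =>
      have h1 := hP F hU _ t n (g n) ht ih
      have h2 : Function.update (fun x => if x < n then g x else f x) n (g n) =
          fun x => if x < n + 1 then g x else f x := by
        funext x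
        by_cases hx : x = n
        · subst hx; simp
        · rw [Function.update_of_ne hx]
          by_cases h3 : x < n
          · simp [h3, Nat.lt_succ_of_lt h3]
          · have h4 : ¬ x < n + 1 := by omega
            simp [h3, h4]
      rwa [h2] at h1
  have h1 := key N
  have h2 : (fun x => if x < N then g x else f x) = g := by
    funext x
    by_cases hx : x < N
    · simp [hx]
    · simp only [hx, if_false]
      exact hN x (by omega)
  rwa [h2] at h1

end R556.FC
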