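import Pool.Agent.R556.FC.Defs

/-! MP_091941_lc: failure of invariance at every bound which does not tend to infinity. -/

set_option autoImplicit false

open Filter

namespace R556.FC

/-- the successor, as a function of arity one -/
def succ1 : (Fin 1 → ℕ) → ℕ := fun w => w 0 + 1

/-- all functions but successors are `0`, and all predicates are false, as long as the arguments
do not contain two numbers `a = 2 b`, `b > c` -/
def Gated (F : Interp) (c : ℕ) : Prop :=
  (∀ (k : ℕ) (f : (Fin k → ℕ) → ℕ), (⟨k, f⟩ : Σ k : ℕ, (Fin k → ℕ) → ℕ) ∈ F.funs →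
    (∃ i, ∀ w, f w = w i + 1) ∨ ∀ w, f w = 0 ∨ ∃ i j, w i = 2 * w j ∧ c < w j) ∧
  ∀ (k : ℕ) (p : (Fin k → ℕ) → Bool), (⟨k, p⟩ : Σ k : ℕ, (Fin k → ℕ) → Bool) ∈ F.preds →
    ∀ w, p w = false ∨ ∃ i j, w i = 2 * w j ∧ c < w j

lemma run_pos' {F : Interp} {Var Node : Type} {I : Node → Instr F Var Node} {q : Node}
    {σ : Var → ℕ} {y T : ℕ} (h : Run I q σ y T) : 1 ≤ T := by
  cases h <;> omega

lemma gate_closed {Var : Type} {c x m : ℕ} {σ σ0 : Var → ℕ} (hx : c < x) (hm : m ≤ c)
    (h1 : ∀ v, σ v = σ0 v ∨ σ v = σ0 v + x) (h2 : ∀ v, σ0 v ≤ m) (u v : Var)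
    (h : σ u = 2 * σ v) (h' : c < σ v) : False := by
  have := h1 u; have := h1 v; have := h2 u; have := h2 v
  omega

lemma key {F : Interp} {c x : ℕ} (hF : Gated F c) (hx : c < x) {Var Node : Type}
    {I : Node → Instr F Var Node} {q : Node} {σ : Var → ℕ} {y T : ℕ} (h : Run I q σ y T) :
    ∀ (m : ℕ) (σ0 : Var → ℕ), (∀ v, σ v = σ0 v ∨ σ v = σ0 v + x) → (∀ v, σ0 v ≤ m) →
      m + T ≤ c + 1 → y + 1 ≤ x + m + T ∧ (y + 1 = x + m + T → Run I q σ0 (m + T - 1) T) := by
  classical
  induction h with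
  | halt q σ out h =>
    intro m σ0 h1 h2 h3
    have a1 := h1 out
    have a2 := h2 out
    refine ⟨by omega, fun he => ?_⟩
    have : σ0 out = m + 1 - 1 := by omega
    rw [← this]
    exact Run.halt q σ0 out h
  | op q σ σ' k f hf args dst next y T h e1 e2 hr ih =>
    intro m σ0 h1 h2 h3
    have hT := run_pos' hr
    rcases hF.1 k f hf with ⟨i, hi⟩ | h0
    · set σ0' : Var → ℕ := fun v => if v = dst then σ0 (args i) + 1 else σ0 v with hσ0'
      have b1 : ∀ v, σ' v = σ0' v ∨ σ' v = σ0' v + x := by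
        intro v
        by_cases hv : v = dst
        · subst hv
          have := h1 (args i)
          simp only [hσ0', if_true, e1, hi]
          omega
        · have := h1 v
          simp only [hσ0', hv, if_false, e2 v hv]
          exact this
      have b2 : ∀ v, σ0' v ≤ m + 1 := by
        intro v
        have := h2 v
        have := h2 (args i)
        simp only [hσ0']
        split_ifs <;> omega
      obtain ⟨c1, c2⟩ := ih (m + 1) σ0' b1 b2 (by omega)
      refine ⟨by omega, fun he => ?_⟩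
      have c3 := c2 (by omega)
      have c4 : m + 1 + T - 1 = m + (T + 1) - 1 := by omega
      rw [c4] at c3
      refine Run.op q σ0 σ0' k f hf args dst next _ T h ?_ ?_ c3
      · simp [hσ0', hi]
      · intro v hv
        simp [hσ0', hv]
    · have h00 : f (fun i => σ (args i)) = 0 := by
        rcases h0 (fun i => σ (args i)) with h0 | ⟨i, j, h4, h5⟩
        · exact h0
        · exact (gate_closed hx (by omega) h1 h2 _ _ h4 h5).elim
      set σ0' : Var → ℕ := fun v => if v = dst then 0 else σ0 v with hσ0'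
      have b1 : ∀ v, σ' v = σ0' v ∨ σ' v = σ0' v + x := by
        intro v
        by_cases hv : v = dst
        · subst hv
          left
          simp [hσ0', e1, h00]
        · have := h1 v
          simp only [hσ0', hv, if_false, e2 v hv]
          exact this
      have b2 : ∀ v, σ0' v ≤ m := by
        intro v
        have := h2 v
        simp only [hσ0']
        split_ifs <;> omega
      obtain ⟨c1, c2⟩ := ih m σ0' b1 b2 (by omega)
      exact ⟨by omega, fun he => by omega⟩
  | yes q σ k p hp args yes no y T h e1 hr ih =>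
    intro m σ0 h1 h2 h3
    have hT := run_pos' hr
    exfalso
    rcases hF.2 k p hp (fun i => σ (args i)) with h0 | ⟨i, j, h4, h5⟩
    · rw [h0] at e1
      cases e1
    · exact gate_closed hx (by omega) h1 h2 _ _ h4 h5
  | no q σ k p hp args yes no y T h e1 hr ih =>
    intro m σ0 h1 h2 h3
    have hT := run_pos' hr
    obtain ⟨c1, c2⟩ := ih m σ0 h1 h2 (by omega)
    exact ⟨by omega, fun he => by omega⟩

/-- `d` successors -/
def addChart (F : Interp) (hS : (⟨1, succ1⟩ : Σ k : ℕ, (Fin k → ℕ) → ℕ) ∈ F.funs) (d : ℕ) :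
    Flowchart F where
  Var := Unit
  Node := Fin (d + 1)
  finVar := inferInstance
  finNode := inferInstance
  inp := ()
  first := 0
  instr := fun i => if h : i.1 < d then .op 1 succ1 hS (fun _ => ()) () ⟨i.1 + 1, by omega⟩
    else .halt ()

lemma add_run (F : Interp) (hS : (⟨1, succ1⟩ : Σ k : ℕ, (Fin k → ℕ) → ℕ) ∈ F.funs) (d : ℕ) :
    ∀ j (hj : j ≤ d) (z : ℕ), Run (addChart F hS d).instr (⟨d - j, by omega⟩ : Fin (d + 1))
      (fun _ => z) (z + j) (j + 1) := by
  intro j
  induction j with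
  | zero =>
    intro hj z
    refine Run.halt (F := F) (I := (addChart F hS d).instr) (⟨d - 0, by omega⟩ : Fin (d + 1))
      (fun _ => z) () ?_
    simp [addChart]
  | succ j ih =>
    intro hj z
    have h1 := ih (by omega) (z + 1)
    have e : z + (j + 1) = z + 1 + j := by ring
    rw [e]
    refine Run.op (F := F) (I := (addChart F hS d).instr) (⟨d - (j + 1), by omega⟩ : Fin (d + 1))
      (fun _ => z) (fun _ => z + 1) 1 succ1 hS (fun _ => ()) () (⟨d - j, by omega⟩ : Fin (d + 1))
      _ _ ?_ ?_ ?_ h1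
    · have hlt : d - (j + 1) < d := by omega
      have hn : d - (j + 1) + 1 = d - j := by omega
      simp only [addChart, hlt, dif_pos, hn]
    · rfl
    · intro v hv
      exact absurd rfl hv

lemma add_comp (F : Interp) (hS : (⟨1, succ1⟩ : Σ k : ℕ, (Fin k → ℕ) → ℕ) ∈ F.funs) (d x : ℕ) :
    Comp (addChart F hS d) x (x + d) (d + 2) := by
  refine ⟨fun _ => x, d + 1, rfl, fun v hv => absurd rfl hv, rfl, ?_⟩
  have h := add_run F hS d d le_rfl x
  have e : (⟨d - d, by omega⟩ : Fin (d + 1)) = (0 : Fin (d + 1)) := by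
    apply Fin.ext; simp
  rw [e] at h
  exact h

/-- `x ↦ x + d` for `x ≠ 0`, `0 ↦ d + 1` -/
def gd (d : ℕ) : ℕ → ℕ := fun x => if x = 0 then d + 1 else x + d

lemma gd_computable (d : ℕ) : Computable (gd d) := by
  apply Primrec.to_comp
  exact Primrec.ite (Primrec.eq.comp Primrec.id (Primrec.const 0)) (Primrec.const (d + 1))
    (Primrec.nat_add.comp Primrec.id (Primrec.const d))

lemma add_computable (d : ℕ) : Computable (fun x : ℕ => x + d) := by
  apply Primrec.to_comp
  exact Primrec.nat_add.comp Primrec.id (Primrec.const d)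

lemma gd_notMem (F : Interp) (d : ℕ) (hF : Gated F (d + 2)) (hD : StmD) (t : ℕ → ℕ)
    (ht : ∃ᶠ x in atTop, t x ≤ d + 2) : gd d ∉ Cls F t := by
  rintro ⟨P, hP, hev⟩
  obtain ⟨x, hx1, ⟨T, hT, hC⟩, hx2⟩ := (ht.and_eventually (hev.and (eventually_ge_atTop (d + 3)))).exists
  obtain ⟨σ, T', h1, h2, h3, hr⟩ := hC
  have hg : gd d x = x + d := by unfold gd; rw [if_neg (by omega)]
  rw [hg] at hr
  have hrel : ∀ v, σ v = (fun _ : P.Var => 0) v ∨ σ v = (fun _ : P.Var => 0) v + x := by
    intro v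
    by_cases hv : v = P.inp
    · subst hv; right; simpa using h1
    · left; simpa using h2 v hv
  have hpos := run_pos' hr
  obtain ⟨k1, k2⟩ := key hF (by omega : d + 2 < x) hr 0 (fun _ => 0) hrel (fun _ => le_rfl) (by omega)
  have hT' : T' = d + 1 := by omega
  subst hT'
  have k3 := k2 (by omega)
  have k4 : Comp P 0 (0 + (d + 1) - 1) (d + 2) := ⟨fun _ => 0, d + 1, rfl, fun _ _ => rfl, rfl, k3⟩
  obtain ⟨T0, hT0⟩ := hP 0
  have := (hD.2 F P 0 _ _ _ _ k4 hT0).1
  simp [gd] at this

/-- failure of invariance at every bound `t ≥ 2` which does not tend to infinity -/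
theorem neg_of_gated (hD : StmD) (t : ℕ → ℕ) (h2 : ∀ᶠ x in atTop, 2 ≤ t x)
    (hb : ¬ Tendsto t atTop atTop) :
    ∃ d : ℕ, ∀ F : Interp, Gated F (d + 2) →
      (⟨1, succ1⟩ : Σ k : ℕ, (Fin k → ℕ) → ℕ) ∈ F.funs →
      ∃ f g : ℕ → ℕ, Computable f ∧ Computable g ∧ f ∈ Cls F t ∧ (∀ᶠ x in atTop, f x = g x) ∧
        g ∉ Cls F t := by
  classical
  have hex : ∃ b : ℕ, ¬ ∀ᶠ x in atTop, b ≤ t x := by
    by_contra hcon
    push Not at hcon
    exact hb (tendsto_atTop.2 hcon)
  have hfind := Nat.find_spec hex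
  have hmin := fun k => Nat.find_min (H := hex) (m := k)
  set b := Nat.find hex with hbdef
  have hb3 : 3 ≤ b := by
    by_contra hlt
    apply hfind
    filter_upwards [h2] with x hx
    omega
  have hlow : ∀ᶠ x in atTop, b - 1 ≤ t x := by
    by_contra hcon
    exact hmin (b - 1) (by omega) hcon
  refine ⟨b - 3, fun F hF hS => ⟨fun x => x + (b - 3), gd (b - 3), add_computable _, gd_computable _,
    ?_, ?_, ?_⟩⟩
  · refine ⟨addChart F hS (b - 3), fun x => ⟨_, add_comp F hS _ x⟩, ?_⟩
    filter_upwards [hlow] with x hx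
    exact ⟨_, by omega, add_comp F hS _ x⟩
  · filter_upwards [eventually_ge_atTop 1] with x hx
    unfold gd
    rw [if_neg (by omega)]
  · apply gd_notMem F _ hF hD
    have h3 : ∃ᶠ x in atTop, ¬ (b ≤ t x) := not_eventually.1 hfind
    refine h3.mono fun x hx => ?_
    omega

end R556.FC
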