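import Pool.Agent.R556.FC.Defs

/-!
MP_091941_lc: determinism; the input variable is never overwritten (helper451)
-/

set_option autoImplicit false

namespace R556.FC

theorem run_det {F : Interp} {Var Node : Type} {I : Node → Instr F Var Node} {q : Node}
    {σ : Var → ℕ} {y T : ℕ} (h : Run I q σ y T) :
    ∀ (y' T' : ℕ), Run I q σ y' T' → y = y' ∧ T = T' := by
  induction h with
  | halt q σ out h =>
    intro y' T' h'
    cases h' with
    | halt _ _ out' h2 =>
      have h3 := h.symm.trans h2
      cases h3
      exact ⟨rfl, rfl⟩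
    | op _ _ σ' k f hf args dst next y T h2 _ _ _ => exact absurd (h.symm.trans h2) (by simp)
    | yes _ _ k p hp args yes no y T h2 _ _ => exact absurd (h.symm.trans h2) (by simp)
    | no _ _ k p hp args yes no y T h2 _ _ => exact absurd (h.symm.trans h2) (by simp)
  | op q σ σ' k f hf args dst next y T h h1 h2 hr ih =>
    intro y' T' h'
    cases h' with
    | halt _ _ out' h3 => exact absurd (h.symm.trans h3) (by simp)
    | op _ _ σ'' k' f' hf' args' dst' next' y' T' h3 h4 h5 hr' =>
      have h6 := h.symm.trans h3
      cases h6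
      have h7 : σ' = σ'' := by
        funext v
        by_cases hv : v = dst
        · rw [hv, h1, h4]
        · rw [h2 v hv, h5 v hv]
      subst h7
      obtain ⟨h8, h9⟩ := ih _ _ hr'
      exact ⟨h8, by rw [h9]⟩
    | yes _ _ k p hp args yes no y T h3 _ _ => exact absurd (h.symm.trans h3) (by simp)
    | no _ _ k p hp args yes no y T h3 _ _ => exact absurd (h.symm.trans h3) (by simp)
  | yes q σ k p hp args yes no y T h h1 hr ih =>
    intro y' T' h'
    cases h' with
    | halt _ _ out' h3 => exact absurd (h.symm.trans h3) (by simp)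
    | op _ _ σ'' k' f' hf' args' dst' next' y' T' h3 _ _ _ =>
      exact absurd (h.symm.trans h3) (by simp)
    | yes _ _ k' p' hp' args' yes' no' y' T' h3 h4 hr' =>
      have h6 := h.symm.trans h3
      cases h6
      obtain ⟨h8, h9⟩ := ih _ _ hr'
      exact ⟨h8, by rw [h9]⟩
    | no _ _ k' p' hp' args' yes' no' y' T' h3 h4 hr' =>
      have h6 := h.symm.trans h3
      cases h6
      rw [h1] at h4
      exact absurd h4 (by simp)
  | no q σ k p hp args yes no y T h h1 hr ih =>
    intro y' T' h'
    cases h' with
    | halt _ _ out' h3 => exact absurd (h.symm.trans h3) (by simp)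
    | op _ _ σ'' k' f' hf' args' dst' next' y' T' h3 _ _ _ =>
      exact absurd (h.symm.trans h3) (by simp)
    | yes _ _ k' p' hp' args' yes' no' y' T' h3 h4 hr' =>
      have h6 := h.symm.trans h3
      cases h6
      rw [h1] at h4
      exact absurd h4 (by simp)
    | no _ _ k' p' hp' args' yes' no' y' T' h3 h4 hr' =>
      have h6 := h.symm.trans h3
      cases h6
      obtain ⟨h8, h9⟩ := ih _ _ hr'
      exact ⟨h8, by rw [h9]⟩

/-- FC-D -/
theorem stmD : StmD := by
  refine ⟨fun F Var Node I q σ y y' T T' h h' => run_det h _ _ h', ?_⟩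
  rintro F P x y y' T T' ⟨σ, S, h1, h2, h3, h4⟩ ⟨σ', S', h1', h2', h3', h4'⟩
  have h5 : σ = σ' := by
    funext v
    by_cases hv : v = P.inp
    · rw [hv, h1, h1']
    · rw [h2 v hv, h2' v hv]
  subst h5
  obtain ⟨h6, h7⟩ := run_det h4 _ _ h4'
  exact ⟨h6, by omega⟩

namespace Keep

open Classical in
/-- the name of a variable in the two phases -/
noncomputable def nm {V : Type} (i : V) (b : Bool) (v : V) : Option V :=
  if b = false ∧ v = i then none else some v

lemma nm_or {V : Type} (i : V) (b : Bool) (v : V) : nm i b v = none ∨ nm i b v = some v := by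
  unfold nm
  split_ifs
  · exact Or.inl rfl
  · exact Or.inr rfl

open Classical in
/-- the phase after writing into `dst` -/
noncomputable def ph {V : Type} (i : V) (b : Bool) (dst : V) : Bool := if dst = i then true else b

/-- the renamed instruction -/
noncomputable def ren {F : Interp} {V N : Type} (i : V) (b : Bool) :
    Instr F V N → Instr F (Option V) (Bool × N)
  | .op k f hf args dst next =>
    .op k f hf (fun j => nm i b (args j)) (some dst) (ph i b dst, next)
  | .test k p hp args yes no => .test k p hp (fun j => nm i b (args j)) (b, yes) (b, no)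
  | .halt out => .halt (nm i b out)

/-- the new program -/
noncomputable def J {F : Interp} {V N : Type} (i : V) (I : N → Instr F V N) (q : Bool × N) :
    Instr F (Option V) (Bool × N) := ren i q.1 (I q.2)

lemma nm_dst {V : Type} (i : V) (b : Bool) (dst : V) : nm i (ph i b dst) dst = some dst := by
  unfold nm ph
  by_cases h : dst = i
  · simp [h]
  · simp [h]

lemma nm_ne {V : Type} (i : V) (b : Bool) (dst v : V) (h : v ≠ dst) :
    nm i (ph i b dst) v ≠ some dst := by
  rcases nm_or i (ph i b dst) v with h1 | h1
  · rw [h1]; simp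
  · rw [h1]
    intro h2
    exact h (Option.some.inj h2)

lemma nm_same {V : Type} (i : V) (b : Bool) (dst v : V) (h : v ≠ dst) :
    nm i (ph i b dst) v = nm i b v := by
  unfold nm ph
  by_cases h1 : dst = i
  · have h2 : v ≠ i := h1 ▸ h
    simp [h2]
  · rw [if_neg h1]

lemma inv_step {V : Type} {i : V} {b : Bool} {σ σ1 : V → ℕ} {τ τ1 : Option V → ℕ} {dst : V}
    (hinv : ∀ v, τ (nm i b v) = σ v) (h1 : σ1 dst = τ1 (some dst))
    (h2 : ∀ v, v ≠ dst → σ1 v = σ v) (h3 : ∀ v, v ≠ some dst → τ1 v = τ v) :
    ∀ v, τ1 (nm i (ph i b dst) v) = σ1 v := by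
  intro v
  by_cases hv : v = dst
  · rw [hv, nm_dst, h1]
  · rw [h3 _ (nm_ne i b dst v hv), nm_same i b dst v hv, hinv, h2 v hv]

theorem fwd {F : Interp} {V N : Type} {i : V} {I : N → Instr F V N} {q : N} {σ : V → ℕ} {y T : ℕ}
    (h : Run I q σ y T) : ∀ (b : Bool) (τ : Option V → ℕ), (∀ v, τ (nm i b v) = σ v) →
      Run (J i I) (b, q) τ y T := by
  induction h with
  | halt q σ out h =>
    intro b τ hinv
    rw [← hinv out]
    refine Run.halt (b, q) τ (nm i b out) ?_
    simp [J, h, ren]
  | op q σ σ' k f hf args dst next y T h h1 h2 hr ih =>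
    intro b τ hinv
    classical
    refine Run.op (b, q) τ (Function.update τ (some dst) (f fun j => τ (nm i b (args j)))) k f hf
      (fun j => nm i b (args j)) (some dst) (ph i b dst, next) y T (by simp [J, h, ren])
      (by simp) (fun v hv => Function.update_of_ne hv _ _) (ih _ _ ?_)
    refine inv_step hinv ?_ h2 (fun v hv => Function.update_of_ne hv _ _)
    simp [h1, hinv]
  | yes q σ k p hp args yes no y T h h1 hr ih =>
    intro b τ hinv
    refine Run.yes (b, q) τ k p hp (fun j => nm i b (args j)) (b, yes) (b, no) y T
      (by simp [J, h, ren]) ?_ (ih b τ hinv)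
    simpa [hinv] using h1
  | no q σ k p hp args yes no y T h h1 hr ih =>
    intro b τ hinv
    refine Run.no (b, q) τ k p hp (fun j => nm i b (args j)) (b, yes) (b, no) y T
      (by simp [J, h, ren]) ?_ (ih b τ hinv)
    simpa [hinv] using h1

theorem bwd {F : Interp} {V N : Type} {i : V} {I : N → Instr F V N} {r : Bool × N}
    {τ : Option V → ℕ} {y T : ℕ} (h : Run (J i I) r τ y T) :
    ∀ σ : V → ℕ, (∀ v, τ (nm i r.1 v) = σ v) → Run I r.2 σ y T := by
  induction h with
  | halt r τ out h =>
    intro σ hinv
    unfold J at h
    cases hq : I r.2 with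
    | op k f hf args dst next => rw [hq] at h; exact absurd h (by simp [ren])
    | test k p hp args yes no => rw [hq] at h; exact absurd h (by simp [ren])
    | halt out' =>
      rw [hq] at h
      simp only [ren, Instr.halt.injEq] at h
      rw [← h, hinv]
      exact Run.halt _ _ _ hq
  | op r τ τ' k f hf args dst next y T h h1 h2 hr ih =>
    intro σ hinv
    unfold J at h
    cases hq : I r.2 with
    | op k' f' hf' args' dst' next' =>
      rw [hq] at h
      unfold ren at h
      cases h
      classical
      refine Run.op r.2 σ (Function.update σ dst' (f fun j => σ (args' j))) k f hf args' dst' next'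
        y T hq (by simp) (fun v hv => Function.update_of_ne hv _ _) (ih _ ?_)
      refine inv_step hinv ?_ (fun v hv => Function.update_of_ne hv _ _) h2
      simp [h1, hinv]
    | test k' p' hp' args' yes' no' => rw [hq] at h; exact absurd h (by simp [ren])
    | halt out' => rw [hq] at h; exact absurd h (by simp [ren])
  | yes r τ k p hp args yes no y T h h1 hr ih =>
    intro σ hinv
    unfold J at h
    cases hq : I r.2 with
    | op k' f' hf' args' dst' next' => rw [hq] at h; exact absurd h (by simp [ren])
    | test k' p' hp' args' yes' no' =>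
      rw [hq] at h
      unfold ren at h
      cases h
      refine Run.yes r.2 σ k p hp args' yes' no' y T hq ?_ (ih _ hinv)
      simpa [hinv] using h1
    | halt out' => rw [hq] at h; exact absurd h (by simp [ren])
  | no r τ k p hp args yes no y T h h1 hr ih =>
    intro σ hinv
    unfold J at h
    cases hq : I r.2 with
    | op k' f' hf' args' dst' next' => rw [hq] at h; exact absurd h (by simp [ren])
    | test k' p' hp' args' yes' no' =>
      rw [hq] at h
      unfold ren at h
      cases h
      refine Run.no r.2 σ k p hp args' yes' no' y T hq ?_ (ih _ hinv)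
      simpa [hinv] using h1
    | halt out' => rw [hq] at h; exact absurd h (by simp [ren])

lemma keeps {F : Interp} {V N : Type} (i : V) (I : N → Instr F V N) (r : Bool × N) (k : ℕ)
    (f : (Fin k → ℕ) → ℕ) (hf : (⟨k, f⟩ : Σ k : ℕ, (Fin k → ℕ) → ℕ) ∈ F.funs)
    (args : Fin k → Option V) (dst : Option V) (next : Bool × N)
    (h : J i I r = .op k f hf args dst next) : dst ≠ none := by
  unfold J at h
  cases hq : I r.2 with
  | op k' f' hf' args' dst' next' =>
    rw [hq] at h
    unfold ren at h
    cases h
    simp
  | test k' p' hp' args' yes' no' => rw [hq] at h; exact absurd h (by simp [ren])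
  | halt out' => rw [hq] at h; exact absurd h (by simp [ren])

end Keep

open Keep in
/-- FC-K -/
theorem stmK : StmK := by
  intro F P
  have hV := P.finVar
  have hN := P.finNode
  refine ⟨⟨Option P.Var, Bool × P.Node, inferInstance, inferInstance, none, (false, P.first),
    J P.inp P.instr⟩, fun q k f hf args dst next h => keeps _ _ q k f hf args dst next h, ?_⟩
  intro x y T
  constructor
  · rintro ⟨σ, T', h1, h2, h3, h4⟩
    refine ⟨fun o => if o = none then x else 0, T', by simp, ?_, h3, fwd h4 false _ ?_⟩
    · intro v hv
      exact if_neg hv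
    · intro v
      by_cases hv : v = P.inp
      · simp [nm, hv, h1]
      · simp [nm, hv, h2 v hv]
  · rintro ⟨τ, T', h1, h2, h3, h4⟩
    refine ⟨fun v => τ (nm P.inp false v), T', ?_, ?_, h3, bwd h4 _ fun v => rfl⟩
    · simp only [nm, and_self, if_true]
      exact h1
    · intro v hv
      simp only [nm, hv, and_false, if_false]
      exact h2 _ (by simp)

end R556.FC
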