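import Pool.Agent.R556.FC.Defs

/-! MP_091941_lc, piece FC-P: changing one value of a function costs nothing if the bound tends
to infinity. -/

set_option autoImplicit false

open Filter

namespace R556.FC

namespace Pt

section upd

variable {V V' : Type}

open Classical in
/-- update of one variable -/
noncomputable def upd (σ : V → ℕ) (d : V) (a : ℕ) : V → ℕ := Function.update σ d a

lemma upd_self (σ : V → ℕ) (d : V) (a : ℕ) : upd σ d a d = a := by simp [upd]

lemma upd_ne {σ : V → ℕ} {d v : V} {a : ℕ} (h : v ≠ d) : upd σ d a v = σ v := by simp [upd, h]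

lemma upd_comp (τ : V → V') (hτ : Function.Injective τ) (σ : V' → ℕ) (d : V) (a : ℕ) :
    upd σ (τ d) a ∘ τ = upd (σ ∘ τ) d a := by
  funext v
  by_cases h : v = d
  · subst h
    simp [upd_self]
  · rw [upd_ne h, Function.comp_apply, upd_ne fun e => h (hτ e), Function.comp_apply]

lemma eq_upd {σ σ' : V → ℕ} {d : V} {a : ℕ} (h1 : σ' d = a) (h2 : ∀ v, v ≠ d → σ' v = σ v) :
    σ' = upd σ d a := by
  funext v
  by_cases h : v = d
  · subst h
    rw [upd_self, h1]
  · rw [upd_ne h, h2 v h]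

end upd

section runs

variable {F : Interp} {V V' N N' : Type}

lemma Run.op' {I : N → Instr F V N} {q : N} {σ : V → ℕ} {y T k : ℕ} {f : (Fin k → ℕ) → ℕ}
    {hf : (⟨k, f⟩ : Σ k : ℕ, (Fin k → ℕ) → ℕ) ∈ F.funs} {args : Fin k → V} {dst : V} {next : N}
    (h : I q = .op k f hf args dst next)
    (hr : Run I next (upd σ dst (f fun i => σ (args i))) y T) : Run I q σ y (T + 1) :=
  Run.op q σ _ k f hf args dst next y T h (upd_self _ _ _) (fun _ hv => upd_ne hv) hr

lemma inv_op {I : N → Instr F V N} {q : N} {σ : V → ℕ} {y T k : ℕ} {f : (Fin k → ℕ) → ℕ}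
    {hf : (⟨k, f⟩ : Σ k : ℕ, (Fin k → ℕ) → ℕ) ∈ F.funs} {args : Fin k → V} {dst : V} {next : N}
    (h : I q = .op k f hf args dst next) (hr : Run I q σ y T) :
    ∃ T', T = T' + 1 ∧ Run I next (upd σ dst (f fun i => σ (args i))) y T' := by
  cases hr with
  | halt _ _ out h' => rw [h] at h'; cases h'
  | op _ _ σ' k' f' hf' args' dst' next' _ T' h' h1 h2 hr =>
    rw [h] at h'
    cases h'
    refine ⟨T', rfl, ?_⟩
    rw [← eq_upd h1 h2]
    exact hr
  | yes _ _ k' p' hp' args' yes' no' _ T' h' h1 hr => rw [h] at h'; cases h'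
  | no _ _ k' p' hp' args' yes' no' _ T' h' h1 hr => rw [h] at h'; cases h'

lemma inv_test {I : N → Instr F V N} {q : N} {σ : V → ℕ} {y T k : ℕ} {p : (Fin k → ℕ) → Bool}
    {hp : (⟨k, p⟩ : Σ k : ℕ, (Fin k → ℕ) → Bool) ∈ F.preds} {args : Fin k → V} {yes no : N}
    (h : I q = .test k p hp args yes no) (hr : Run I q σ y T) :
    ∃ T', T = T' + 1 ∧ ((p (fun i => σ (args i)) = true ∧ Run I yes σ y T') ∨
      (p (fun i => σ (args i)) = false ∧ Run I no σ y T')) := by
  cases hr with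
  | halt _ _ out h' => rw [h] at h'; cases h'
  | op _ _ σ' k' f' hf' args' dst' next' _ T' h' h1 h2 hr => rw [h] at h'; cases h'
  | yes _ _ k' p' hp' args' yes' no' _ T' h' h1 hr =>
    rw [h] at h'
    cases h'
    exact ⟨T', rfl, Or.inl ⟨h1, hr⟩⟩
  | no _ _ k' p' hp' args' yes' no' _ T' h' h1 hr =>
    rw [h] at h'
    cases h'
    exact ⟨T', rfl, Or.inr ⟨h1, hr⟩⟩

lemma inv_halt {I : N → Instr F V N} {q : N} {σ : V → ℕ} {y T : ℕ} {out : V}
    (h : I q = .halt out) (hr : Run I q σ y T) : y = σ out ∧ T = 1 := by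
  cases hr with
  | halt _ _ out' h' => rw [h] at h'; cases h'; exact ⟨rfl, rfl⟩
  | op _ _ σ' k' f' hf' args' dst' next' _ T' h' h1 h2 hr => rw [h] at h'; cases h'
  | yes _ _ k' p' hp' args' yes' no' _ T' h' h1 hr => rw [h] at h'; cases h'
  | no _ _ k' p' hp' args' yes' no' _ T' h' h1 hr => rw [h] at h'; cases h'

lemma run_pos {I : N → Instr F V N} {q : N} {σ : V → ℕ} {y T : ℕ} (hr : Run I q σ y T) :
    1 ≤ T := by
  cases hr <;> omega

/-- renaming of variables and nodes -/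
def mapI (τ : V → V') (j : N → N') : Instr F V N → Instr F V' N'
  | .op k f hf args dst next => .op k f hf (fun i => τ (args i)) (τ dst) (j next)
  | .test k p hp args yes no => .test k p hp (fun i => τ (args i)) (j yes) (j no)
  | .halt out => .halt (τ out)

lemma run_map {I : N → Instr F V N} {I' : N' → Instr F V' N'} (τ : V → V')
    (hτ : Function.Injective τ) (j : N → N') (hI : ∀ q, I' (j q) = mapI τ j (I q)) {q : N}
    {σ : V → ℕ} {y T : ℕ} (hr : Run I q σ y T) :
    ∀ σ' : V' → ℕ, σ' ∘ τ = σ → Run I' (j q) σ' y T := by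
  induction hr with
  | halt q σ out h =>
    intro σ' e
    have h1 := Run.halt (I := I') (j q) σ' (τ out) (by rw [hI, h]; rfl)
    have e2 : σ' (τ out) = σ out := congrFun e out
    rw [e2] at h1
    exact h1
  | op q σ σ1 k f hf args dst next y T h h1 h2 hr ih =>
    intro σ' e
    subst e
    have h3 : I' (j q) = .op k f hf (fun i => τ (args i)) (τ dst) (j next) := by
      rw [hI, h]
      rfl
    refine Run.op' h3 (ih _ ?_)
    rw [upd_comp _ hτ]
    exact (eq_upd h1 h2).symm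
  | yes q σ k p hp args yes no y T h h1 hr ih =>
    intro σ' e
    subst e
    have h3 : I' (j q) = .test k p hp (fun i => τ (args i)) (j yes) (j no) := by
      rw [hI, h]
      rfl
    exact Run.yes _ _ _ _ _ _ _ _ _ _ h3 h1 (ih _ rfl)
  | no q σ k p hp args yes no y T h h1 hr ih =>
    intro σ' e
    subst e
    have h3 : I' (j q) = .test k p hp (fun i => τ (args i)) (j yes) (j no) := by
      rw [hI, h]
      rfl
    exact Run.no _ _ _ _ _ _ _ _ _ _ h3 h1 (ih _ rfl)

end runs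

/-- a program fragment -/
structure Frag (F : Interp) (V : Type) where
  N : Type
  fin : Finite N
  s : N
  I : N → Instr F V N

section frag

variable {F : Interp} {V : Type}

/-- a fragment runs from its start node -/
def Frag.Runs (G : Frag F V) (σ : V → ℕ) (y T : ℕ) : Prop := Run G.I G.s σ y T

/-- halt at once -/
def haltF (o : V) : Frag F V := ⟨Unit, inferInstance, (), fun _ => .halt o⟩

lemma haltF_runs (o : V) (σ : V → ℕ) : (haltF (F := F) o).Runs σ (σ o) 1 :=
  Run.halt _ _ _ rfl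

/-- one operation, then a fragment -/
def opF (k : ℕ) (f : (Fin k → ℕ) → ℕ) (hf : (⟨k, f⟩ : Σ k : ℕ, (Fin k → ℕ) → ℕ) ∈ F.funs)
    (args : Fin k → V) (dst : V) (G : Frag F V) : Frag F V where
  N := Option G.N
  fin := by
    have := G.fin
    infer_instance
  s := none
  I := fun q => match q with
    | none => .op k f hf args dst (some G.s)
    | some q => mapI id some (G.I q)

lemma opF_runs {k : ℕ} {f : (Fin k → ℕ) → ℕ}
    (hf : (⟨k, f⟩ : Σ k : ℕ, (Fin k → ℕ) → ℕ) ∈ F.funs)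
    {args : Fin k → V} {dst : V} {G : Frag F V} {σ : V → ℕ} {y T : ℕ}
    (h : G.Runs (upd σ dst (f fun i => σ (args i))) y T) :
    (opF k f hf args dst G).Runs σ y (T + 1) := by
  refine Run.op' (I := (opF k f hf args dst G).I) (next := some G.s) rfl ?_
  exact run_map (I' := (opF k f hf args dst G).I) id Function.injective_id some
    (fun q => rfl) h _ rfl

/-- one test, then one of two fragments -/
def testF (k : ℕ) (p : (Fin k → ℕ) → Bool) (hp : (⟨k, p⟩ : Σ k : ℕ, (Fin k → ℕ) → Bool) ∈ F.preds)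
    (args : Fin k → V) (G H : Frag F V) : Frag F V where
  N := Option (G.N ⊕ H.N)
  fin := by
    have := G.fin
    have := H.fin
    infer_instance
  s := none
  I := fun q => match q with
    | none => .test k p hp args (some (.inl G.s)) (some (.inr H.s))
    | some (.inl q) => mapI id (fun r => some (.inl r)) (G.I q)
    | some (.inr q) => mapI id (fun r => some (.inr r)) (H.I q)

lemma testF_yes {k : ℕ} {p : (Fin k → ℕ) → Bool}
    (hp : (⟨k, p⟩ : Σ k : ℕ, (Fin k → ℕ) → Bool) ∈ F.preds)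
    {args : Fin k → V} {G H : Frag F V} {σ : V → ℕ} {y T : ℕ}
    (h1 : p (fun i => σ (args i)) = true) (h : G.Runs σ y T) :
    (testF k p hp args G H).Runs σ y (T + 1) := by
  refine Run.yes (I := (testF k p hp args G H).I) _ _ _ _ _ _ _ _ _ _ rfl h1 ?_
  exact run_map (I' := (testF k p hp args G H).I) id Function.injective_id
    (fun r => some (.inl r)) (fun q => rfl) h _ rfl

lemma testF_no {k : ℕ} {p : (Fin k → ℕ) → Bool}
    (hp : (⟨k, p⟩ : Σ k : ℕ, (Fin k → ℕ) → Bool) ∈ F.preds)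
    {args : Fin k → V} {G H : Frag F V} {σ : V → ℕ} {y T : ℕ}
    (h1 : p (fun i => σ (args i)) = false) (h : H.Runs σ y T) :
    (testF k p hp args G H).Runs σ y (T + 1) := by
  refine Run.no (I := (testF k p hp args G H).I) _ _ _ _ _ _ _ _ _ _ rfl h1 ?_
  exact run_map (I' := (testF k p hp args G H).I) id Function.injective_id
    (fun r => some (.inr r)) (fun q => rfl) h _ rfl

/-- a renamed copy of a flowchart, started at the node `q` -/
def copyF (P : Flowchart F) (τ : P.Var → V) (q : P.Node) : Frag F V where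
  N := P.Node
  fin := P.finNode
  s := q
  I := fun r => mapI τ id (P.instr r)

lemma copyF_runs {P : Flowchart F} {τ : P.Var → V} (hτ : Function.Injective τ) {q : P.Node}
    {σ : V → ℕ} {y T : ℕ} (h : Run P.instr q (σ ∘ τ) y T) : (copyF P τ q).Runs σ y T :=
  run_map (I' := (copyF P τ q).I) τ hτ id (fun _ => rfl) h _ rfl

end frag

section main

variable {F : Interp} (P Q : Flowchart F)

open Classical in
/-- the naming of the variables of the second flowchart -/
noncomputable def tau : Q.Var → P.Var ⊕ Q.Var :=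
  fun v => if v = Q.inp then .inl P.inp else .inr v

lemma tau_inp : tau P Q Q.inp = .inl P.inp := by simp [tau]

lemma tau_ne {v : Q.Var} (h : v ≠ Q.inp) : tau P Q v = .inr v := by simp [tau, h]

lemma tau_inj : Function.Injective (tau P Q) := by
  intro v w h
  by_cases hv : v = Q.inp <;> by_cases hw : w = Q.inp
  · rw [hv, hw]
  · rw [hv, tau_inp, tau_ne P Q hw] at h
    cases h
  · rw [hw, tau_inp, tau_ne P Q hv] at h
    cases h
  · rw [tau_ne P Q hv, tau_ne P Q hw] at h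
    exact Sum.inr.inj h

/-- fragment (B) -/
lemma fragB (hQ : KeepsInput Q) (o : P.Var) {q : Q.Node} {s₀ : Q.Var → ℕ} {y₀ n : ℕ}
    (hr : Run Q.instr q s₀ y₀ n) :
    ∃ G : Frag F (P.Var ⊕ Q.Var), ∀ σ : P.Var ⊕ Q.Var → ℕ,
      (σ ∘ tau P Q = s₀ → ∃ T, G.Runs σ y₀ T) ∧
      ((¬ ∃ z T, Run Q.instr q (σ ∘ tau P Q) z T) → ∃ T ≤ n, G.Runs σ (σ (.inl o)) T) := by
  induction hr with
  | halt q s₀ out h =>
    refine ⟨haltF (tau P Q out), fun σ => ⟨fun e => ⟨1, ?_⟩, fun hn => ?_⟩⟩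
    · subst e
      exact haltF_runs _ _
    · exact absurd ⟨_, _, Run.halt q _ out h⟩ hn
  | op q s₀ s₁ k f hf args dst next y T h h1 h2 hr ih =>
    obtain ⟨G, hG⟩ := ih
    refine ⟨opF k f hf (fun i => tau P Q (args i)) (tau P Q dst) G, fun σ => ?_⟩
    have e1 : upd σ (tau P Q dst) (f fun i => σ (tau P Q (args i))) ∘ tau P Q =
        upd (σ ∘ tau P Q) dst (f fun i => (σ ∘ tau P Q) (args i)) :=
      upd_comp _ (tau_inj P Q) _ _ _
    obtain ⟨g1, g2⟩ := hG (upd σ (tau P Q dst) (f fun i => σ (tau P Q (args i))))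
    constructor
    · intro e
      obtain ⟨T', hT'⟩ := g1 (by rw [e1, e]; exact (eq_upd h1 h2).symm)
      exact ⟨_, opF_runs hf hT'⟩
    · intro hn
      obtain ⟨T', hle, hT'⟩ := g2 (by
        rintro ⟨z, T', hz⟩
        rw [e1] at hz
        exact hn ⟨z, T' + 1, Run.op' h hz⟩)
      have hd : dst ≠ Q.inp := hQ _ _ _ _ _ _ _ h
      rw [upd_ne (v := Sum.inl o) (by rw [tau_ne P Q hd]; exact Sum.inl_ne_inr)] at hT'
      exact ⟨T' + 1, by omega, opF_runs hf hT'⟩
  | yes q s₀ k p hp args yes no y T h h1 hr ih =>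
    obtain ⟨G, hG⟩ := ih
    refine ⟨testF k p hp (fun i => tau P Q (args i)) G (haltF (.inl o)), fun σ => ?_⟩
    obtain ⟨g1, g2⟩ := hG σ
    constructor
    · intro e
      obtain ⟨T', hT'⟩ := g1 e
      subst e
      exact ⟨_, testF_yes hp h1 hT'⟩
    · intro hn
      cases hb : p (fun i => σ (tau P Q (args i))) with
      | true =>
        obtain ⟨T', hle, hT'⟩ := g2 (by
          rintro ⟨z, T', hz⟩
          exact hn ⟨z, T' + 1, Run.yes _ _ _ _ _ _ _ _ _ _ h hb hz⟩)
        exact ⟨T' + 1, by omega, testF_yes hp hb hT'⟩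
      | false =>
        have := run_pos hr
        exact ⟨1 + 1, by omega, testF_no hp hb (haltF_runs _ _)⟩
  | no q s₀ k p hp args yes no y T h h1 hr ih =>
    obtain ⟨G, hG⟩ := ih
    refine ⟨testF k p hp (fun i => tau P Q (args i)) (haltF (.inl o)) G, fun σ => ?_⟩
    obtain ⟨g1, g2⟩ := hG σ
    constructor
    · intro e
      obtain ⟨T', hT'⟩ := g1 e
      subst e
      exact ⟨_, testF_no hp h1 hT'⟩
    · intro hn
      cases hb : p (fun i => σ (tau P Q (args i))) with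
      | false =>
        obtain ⟨T', hle, hT'⟩ := g2 (by
          rintro ⟨z, T', hz⟩
          exact hn ⟨z, T' + 1, Run.no _ _ _ _ _ _ _ _ _ _ h hb hz⟩)
        exact ⟨T' + 1, by omega, testF_no hp hb hT'⟩
      | true =>
        have := run_pos hr
        exact ⟨1 + 1, by omega, testF_yes hp hb (haltF_runs _ _)⟩

/-- fragment (A) -/
lemma fragA (hP : KeepsInput P) (hQ : KeepsInput Q) (x₀ y₀ : ℕ)
    (hQ1 : ∃ T, Comp Q x₀ y₀ T) (hQ2 : ∀ x, x ≠ x₀ → ¬ ∃ y T, Comp Q x y T)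
    {q : P.Node} {s₀ : P.Var → ℕ} {z₀ n₀ : ℕ} (hr : Run P.instr q s₀ z₀ n₀)
    (hs : s₀ P.inp = x₀) :
    ∃ (G : Frag F (P.Var ⊕ Q.Var)) (c : ℕ), ∀ σ : P.Var ⊕ Q.Var → ℕ,
      (∀ v, v ≠ Q.inp → σ (.inr v) = 0) →
      (σ ∘ Sum.inl = s₀ → ∃ T, G.Runs σ y₀ T) ∧
      (σ (.inl P.inp) ≠ x₀ → ∀ z T, Run P.instr q (σ ∘ Sum.inl) z T →
        ∃ T', G.Runs σ z T' ∧ (T' ≤ T ∨ T' ≤ c)) := by
  induction hr with
  | halt q s₀ out h =>
    obtain ⟨T, s₁, T₁, e1, e2, e3, hr1⟩ := hQ1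
    obtain ⟨G, hG⟩ := fragB P Q hQ out hr1
    refine ⟨G, T₁, fun σ hσ => ?_⟩
    obtain ⟨g1, g2⟩ := hG σ
    constructor
    · intro e
      refine g1 ?_
      funext v
      by_cases hv : v = Q.inp
      · subst hv
        rw [Function.comp_apply, tau_inp, e1, ← hs, ← e]
        rfl
      · rw [Function.comp_apply, tau_ne P Q hv, hσ v hv, e2 v hv]
    · intro hx z T2 hz
      obtain ⟨hz1, hz2⟩ := inv_halt h hz
      subst hz1
      obtain ⟨T', hle, hT'⟩ := g2 (by
        rintro ⟨z, T', hz⟩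
        refine hQ2 _ hx ⟨z, T' + 1, σ ∘ tau P Q, T', ?_, ?_, rfl, hz⟩
        · rw [Function.comp_apply, tau_inp]
        · intro v hv
          rw [Function.comp_apply, tau_ne P Q hv, hσ v hv])
      exact ⟨T', hT', Or.inr hle⟩
  | op q s₀ s₁ k f hf args dst next y T h h1 h2 hr ih =>
    have hd : dst ≠ P.inp := hP _ _ _ _ _ _ _ h
    obtain ⟨G, c, hG⟩ := ih (by rw [h2 _ hd.symm, hs])
    refine ⟨opF k f hf (fun i => .inl (args i)) (.inl dst) G, c + 1, fun σ hσ => ?_⟩
    have e1 : upd σ (.inl dst) (f fun i => σ (.inl (args i))) ∘ Sum.inl =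
        upd (σ ∘ Sum.inl) dst (f fun i => (σ ∘ Sum.inl) (args i)) :=
      upd_comp _ Sum.inl_injective _ _ _
    obtain ⟨g1, g2⟩ := hG (upd σ (.inl dst) (f fun i => σ (.inl (args i)))) (by
      intro v hv
      rw [upd_ne Sum.inr_ne_inl, hσ v hv])
    constructor
    · intro e
      obtain ⟨T', hT'⟩ := g1 (by rw [e1, e]; exact (eq_upd h1 h2).symm)
      exact ⟨_, opF_runs hf hT'⟩
    · intro hx z T2 hz
      obtain ⟨T3, e3, hz3⟩ := inv_op h hz
      obtain ⟨T', hT', hle⟩ := g2 (by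
        rw [upd_ne (by simpa using hd.symm)]
        exact hx) z T3 (by rw [e1]; exact hz3)
      exact ⟨T' + 1, opF_runs hf hT', by omega⟩
  | yes q s₀ k p hp args yes no y T h h1 hr ih =>
    obtain ⟨G, c, hG⟩ := ih hs
    refine ⟨testF k p hp (fun i => .inl (args i)) G (copyF P Sum.inl no), c + 1, fun σ hσ => ?_⟩
    obtain ⟨g1, g2⟩ := hG σ hσ
    constructor
    · intro e
      obtain ⟨T', hT'⟩ := g1 e
      subst e
      exact ⟨_, testF_yes hp h1 hT'⟩
    · intro hx z T2 hz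
      obtain ⟨T3, e3, (⟨hb, hz3⟩ | ⟨hb, hz3⟩)⟩ := inv_test h hz
      · obtain ⟨T', hT', hle⟩ := g2 hx z T3 hz3
        exact ⟨T' + 1, testF_yes hp hb hT', by omega⟩
      · exact ⟨T3 + 1, testF_no hp hb (copyF_runs Sum.inl_injective hz3), by omega⟩
  | no q s₀ k p hp args yes no y T h h1 hr ih =>
    obtain ⟨G, c, hG⟩ := ih hs
    refine ⟨testF k p hp (fun i => .inl (args i)) (copyF P Sum.inl yes) G, c + 1, fun σ hσ => ?_⟩
    obtain ⟨g1, g2⟩ := hG σ hσ
    constructor
    · intro e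
      obtain ⟨T', hT'⟩ := g1 e
      subst e
      exact ⟨_, testF_no hp h1 hT'⟩
    · intro hx z T2 hz
      obtain ⟨T3, e3, (⟨hb, hz3⟩ | ⟨hb, hz3⟩)⟩ := inv_test h hz
      · exact ⟨T3 + 1, testF_yes hp hb (copyF_runs Sum.inl_injective hz3), by omega⟩
      · obtain ⟨T', hT', hle⟩ := g2 hx z T3 hz3
        exact ⟨T' + 1, testF_no hp hb hT', by omega⟩

end main

/-- the partial function defined only at `x₀`, with the value `y₀` -/
lemma partrec_point (x₀ y₀ : ℕ) :
    Nat.Partrec (fun x => cond (x == x₀) (Part.some y₀) (Part.none : Part ℕ)) := by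
  rw [← Partrec.nat_iff]
  refine Partrec.cond (f := fun _ => Part.some y₀) (g := fun _ => Part.none) ?_
    (Computable.const y₀).partrec Partrec.none
  exact (Primrec.beq.comp Primrec.id (Primrec.const x₀)).to_comp

end Pt

open Pt in
theorem stmP (_hD : StmD) (hK : StmK) : StmP := by
  rintro F hU f t x₀ y₀ ht ⟨P₀, hP1, hP2⟩
  obtain ⟨P, hP, hPc⟩ := hK F P₀
  obtain ⟨Q₀, hQ₀⟩ := hU _ (partrec_point x₀ y₀)
  obtain ⟨Q, hQ, hQc⟩ := hK F Q₀
  have hQ1 : ∃ T, Comp Q x₀ y₀ T := by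
    obtain ⟨T, hT⟩ := (hQ₀ x₀ y₀).1 (by simp)
    exact ⟨T, (hQc _ _ _).1 hT⟩
  have hQ2 : ∀ x, x ≠ x₀ → ¬ ∃ y T, Comp Q x y T := by
    rintro x hx ⟨y, T, hT⟩
    have h1 := (hQ₀ x y).2 ⟨T, (hQc _ _ _).2 hT⟩
    have h2 : (x == x₀) = false := by simpa using hx
    simp [h2] at h1
  obtain ⟨T₀, hT₀⟩ := hP1 x₀
  obtain ⟨s₀, T₁, e1, e2, e3, hr⟩ := (hPc _ _ _).1 hT₀
  obtain ⟨G, c, hG⟩ := fragA P Q hP hQ x₀ y₀ hQ1 hQ2 hr e1
  have hfin1 := P.finVar
  have hfin2 := Q.finVar
  set P' : Flowchart F :=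
    { Var := P.Var ⊕ Q.Var
      Node := G.N
      finVar := inferInstance
      finNode := G.fin
      inp := .inl P.inp
      first := G.s
      instr := G.I } with hP'
  have hx0 : ∃ T, Comp P' x₀ y₀ T := by
    obtain ⟨g1, -⟩ := hG (Sum.elim s₀ fun _ => 0) (fun v _ => rfl)
    obtain ⟨T, hT⟩ := g1 (by funext v; rfl)
    refine ⟨T + 1, Sum.elim s₀ fun _ => 0, T, e1, ?_, rfl, hT⟩
    rintro (v | v) hv
    · refine e2 v fun h => hv ?_
      rw [h]
    · rfl
  have hx1 : ∀ x, x ≠ x₀ → ∀ y T, Comp P x y T → ∃ T', Comp P' x y T' ∧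
      (T' ≤ T ∨ T' ≤ c + 1) := by
    rintro x hx y T ⟨s, T2, h1, h2, h3, h4⟩
    obtain ⟨-, g2⟩ := hG (Sum.elim s fun _ => 0) (fun v _ => rfl)
    obtain ⟨T', hT', hle⟩ := g2 (by simpa [h1] using hx) y T2 (by
      have : (Sum.elim s fun _ : Q.Var => 0) ∘ Sum.inl = s := by funext v; rfl
      rw [this]
      exact h4)
    refine ⟨T' + 1, ⟨Sum.elim s fun _ => 0, T', h1, ?_, rfl, hT'⟩, by omega⟩
    rintro (v | v) hv
    · refine h2 v fun h => hv ?_
      rw [h]
    · rfl
  refine ⟨P', fun x => ?_, ?_⟩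
  · by_cases hx : x = x₀
    · subst hx
      rw [Function.update_self]
      exact hx0
    · rw [Function.update_of_ne hx]
      obtain ⟨T, hT⟩ := hP1 x
      obtain ⟨T', hT', -⟩ := hx1 x hx _ _ ((hPc _ _ _).1 hT)
      exact ⟨T', hT'⟩
  · filter_upwards [hP2, ht.eventually_ge_atTop (c + 1), eventually_gt_atTop x₀] with x h1 h2 h3
    rw [Function.update_of_ne h3.ne']
    obtain ⟨T, hT1, hT⟩ := h1
    obtain ⟨T', hT', hle⟩ := hx1 x h3.ne' _ _ ((hPc _ _ _).1 hT)
    exact ⟨T', by omega, hT'⟩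

end R556.FC
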