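import Pool.Agent.R556.FC.P

/-! MP_091941_lc, piece FC-U: a finite universal interpretation. -/

set_option autoImplicit false

open Filter

namespace R556.FC

namespace Un

open Nat.Partrec (Code)
open Pt

/-- successor -/
def fS : (Fin 1 → ℕ) → ℕ := fun v => v 0 + 1

/-- the universal step-bounded evaluation -/
def ev (v : Fin 3 → ℕ) : Option ℕ :=
  Code.evaln (v 2) (Denumerable.ofNat Code (v 0)) (v 1)

/-- the value -/
def fU (v : Fin 3 → ℕ) : ℕ := (ev v).getD 0

/-- the test -/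
def pT (v : Fin 3 → ℕ) : Bool := (ev v).isSome

/-- the interpretation -/
def F : Interp where
  funs := {⟨1, fS⟩, ⟨3, fU⟩}
  preds := {⟨3, pT⟩}

lemma hS : (⟨1, fS⟩ : Σ k : ℕ, (Fin k → ℕ) → ℕ) ∈ F.funs := Or.inl rfl

lemma hU : (⟨3, fU⟩ : Σ k : ℕ, (Fin k → ℕ) → ℕ) ∈ F.funs := Or.inr rfl

lemma hT : (⟨3, pT⟩ : Σ k : ℕ, (Fin k → ℕ) → Bool) ∈ F.preds := rfl

lemma prim_app (n : ℕ) (i : Fin n) : Primrec fun v : Fin n → ℕ => v i :=
  Primrec.fin_app.comp Primrec.id (Primrec.const i)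

lemma prim_ev : Primrec ev := by
  have h := Code.primrec_evaln.comp (f := fun a : (ℕ × Code) × ℕ => Code.evaln a.1.1 a.1.2 a.2)
    (g := fun v : Fin 3 → ℕ => ((v 2, Denumerable.ofNat Code (v 0)), v 1))
    (((prim_app 3 2).pair ((Primrec.ofNat Code).comp (prim_app 3 0))).pair (prim_app 3 1))
  exact h

lemma comp_fS : Computable fS := (Primrec.succ.comp (prim_app 1 0)).to_comp

lemma comp_fU : Computable fU :=
  (Primrec.option_getD.comp prim_ev (Primrec.const 0)).to_comp

lemma comp_pT : Computable pT := (Primrec.option_isSome.comp prim_ev).to_comp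

/-- The flowchart of the code number `e`. Variables: 0 = input, 1 = code, 2 = step bound,
3 = output. -/
def chart (e : ℕ) : Fin (e + 1) ⊕ Fin 3 → Instr F (Fin 4) (Fin (e + 1) ⊕ Fin 3)
  | .inl i => if h : i.val < e then
      .op 1 fS hS (fun _ => 1) 1 (.inl ⟨i.val + 1, by omega⟩)
    else .test 3 pT hT ![1, 0, 2] (.inr 0) (.inr 1)
  | .inr 0 => .op 3 fU hU ![1, 0, 2] 3 (.inr 2)
  | .inr 1 => .op 1 fS hS (fun _ => 2) 2 (.inl ⟨e, Nat.lt_succ_self e⟩)
  | .inr 2 => .halt 3

lemma chart_lt (e i : ℕ) (h : i < e) : chart e (.inl ⟨i, by omega⟩) =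
    .op 1 fS hS (fun _ => 1) 1 (.inl ⟨i + 1, by omega⟩) := by
  simp only [chart]
  rw [dif_pos h]

lemma chart_loop (e : ℕ) : chart e (.inl ⟨e, Nat.lt_succ_self e⟩) =
    .test 3 pT hT ![1, 0, 2] (.inr 0) (.inr 1) := by
  simp only [chart]
  rw [dif_neg (lt_irrefl e)]

lemma vec_eq (σ : Fin 4 → ℕ) : (fun i => σ ((![1, 0, 2] : Fin 3 → Fin 4) i)) =
    ![σ 1, σ 0, σ 2] := by
  funext i
  fin_cases i <;> rfl

lemma ev_eq (c : Code) (x k : ℕ) : ev ![Encodable.encode c, x, k] = Code.evaln k c x := by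
  simp [ev]

/-- forward direction, the loop -/
lemma loop_fwd (c : Code) (x y : ℕ) (n : ℕ) : ∀ (j : ℕ) (σ : Fin 4 → ℕ), σ 0 = x →
    σ 1 = Encodable.encode c → σ 2 = j → Code.evaln (j + n) c x = some y →
    ∃ T, Run (chart (Encodable.encode c))
      (.inl ⟨Encodable.encode c, Nat.lt_succ_self _⟩) σ y T := by
  induction n with
  | zero =>
    intro j σ h0 h1 h2 hy
    have e0 : ev ![σ 1, σ 0, σ 2] = some y := by rw [h0, h1, h2, ev_eq]; exact hy
    refine ⟨1 + 1 + 1, Run.yes _ _ _ _ _ _ _ _ _ _ (chart_loop _) ?_ (Run.op' rfl ?_)⟩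
    · rw [vec_eq]
      simp [pT, e0]
    · have h3 := Run.halt (I := chart (Encodable.encode c)) (.inr 2)
        (upd σ 3 (fU fun i => σ ((![1, 0, 2] : Fin 3 → Fin 4) i))) 3 rfl
      rw [upd_self, vec_eq, fU, e0] at h3
      rw [vec_eq, fU, e0]
      exact h3
  | succ n ih =>
    intro j σ h0 h1 h2 hy
    cases hz : Code.evaln j c x with
    | some z =>
      have hzy : z = y := by
        have h3 := Code.evaln_mono (show j ≤ j + (n + 1) by omega) (Option.mem_def.2 hz)
        rw [Option.mem_def, hy] at h3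
        exact (Option.some.inj h3).symm
      subst hzy
      have e0 : ev ![σ 1, σ 0, σ 2] = some z := by rw [h0, h1, h2, ev_eq]; exact hz
      refine ⟨1 + 1 + 1, Run.yes _ _ _ _ _ _ _ _ _ _ (chart_loop _) ?_ (Run.op' rfl ?_)⟩
      · rw [vec_eq]
        simp [pT, e0]
      · have h3 := Run.halt (I := chart (Encodable.encode c)) (.inr 2)
          (upd σ 3 (fU fun i => σ ((![1, 0, 2] : Fin 3 → Fin 4) i))) 3 rfl
        rw [upd_self, vec_eq, fU, e0] at h3
        rw [vec_eq, fU, e0]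
        exact h3
    | none =>
      have e0 : ev ![σ 1, σ 0, σ 2] = none := by rw [h0, h1, h2, ev_eq]; exact hz
      obtain ⟨T, hT'⟩ := ih (j + 1) (upd σ 2 (fS fun _ => σ 2))
        (by rw [upd_ne (by decide)]; exact h0) (by rw [upd_ne (by decide)]; exact h1)
        (by rw [upd_self, fS, h2]) (by rw [← hy]; congr 1; omega)
      refine ⟨T + 1 + 1, Run.no _ _ _ _ _ _ _ _ _ _ (chart_loop _) ?_ (Run.op' rfl hT')⟩
      rw [vec_eq]
      simp [pT, e0]

/-- backward direction, the loop -/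
lemma loop_bwd (c : Code) (x : ℕ) (T : ℕ) : ∀ (σ : Fin 4 → ℕ) (y : ℕ), σ 0 = x →
    σ 1 = Encodable.encode c → Run (chart (Encodable.encode c))
      (.inl ⟨Encodable.encode c, Nat.lt_succ_self _⟩) σ y T → y ∈ c.eval x := by
  induction T using Nat.strong_induction_on with
  | _ T ih =>
    intro σ y h0 h1 hr
    obtain ⟨T1, e1, (⟨hb, hr1⟩ | ⟨hb, hr1⟩)⟩ := inv_test (chart_loop _) hr
    · obtain ⟨T2, e2, hr2⟩ := inv_op (I := chart (Encodable.encode c)) (q := .inr 0)
        (hf := hU) (next := .inr 2) rfl hr1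
      obtain ⟨e3, -⟩ := inv_halt (I := chart (Encodable.encode c)) (q := .inr 2) (out := 3)
        rfl hr2
      rw [upd_self, vec_eq, fU, h0, h1, ev_eq] at e3
      rw [vec_eq, pT, h0, h1, ev_eq] at hb
      obtain ⟨z, hz⟩ := Option.isSome_iff_exists.1 hb
      rw [hz] at e3
      rw [e3]
      exact Code.evaln_sound (Option.mem_def.2 hz)
    · obtain ⟨T2, e2, hr2⟩ := inv_op (I := chart (Encodable.encode c)) (q := .inr 1)
        (hf := hS) (next := .inl ⟨Encodable.encode c, Nat.lt_succ_self _⟩) rfl hr1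
      refine ih T2 (by omega) _ y ?_ ?_ hr2
      · rw [upd_ne (by decide)]
        exact h0
      · rw [upd_ne (by decide)]
        exact h1

lemma start_fwd (c : Code) (x y k : ℕ) (hy : Code.evaln k c x = some y) (n : ℕ) :
    ∀ (i : ℕ) (hi : i + n = Encodable.encode c) (σ : Fin 4 → ℕ), σ 0 = x → σ 1 = i → σ 2 = 0 →
    ∃ T, Run (chart (Encodable.encode c)) (.inl ⟨i, by omega⟩) σ y T := by
  induction n with
  | zero =>
    intro i hi σ h0 h1 h2
    have hi' : i = Encodable.encode c := by omega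
    subst hi'
    exact loop_fwd c x y k 0 σ h0 h1 h2 (by rw [Nat.zero_add]; exact hy)
  | succ n ih =>
    intro i hi σ h0 h1 h2
    obtain ⟨T, hT'⟩ := ih (i + 1) (by omega) (upd σ 1 (fS fun _ => σ 1))
      (by rw [upd_ne (by decide)]; exact h0) (by rw [upd_self, fS, h1])
      (by rw [upd_ne (by decide)]; exact h2)
    exact ⟨T + 1, Run.op' (chart_lt _ i (by omega)) hT'⟩

lemma start_bwd (c : Code) (x y : ℕ) (n : ℕ) :
    ∀ (i : ℕ) (hi : i + n = Encodable.encode c) (σ : Fin 4 → ℕ) (T : ℕ), σ 0 = x → σ 1 = i →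
    Run (chart (Encodable.encode c)) (.inl ⟨i, by omega⟩) σ y T → y ∈ c.eval x := by
  induction n with
  | zero =>
    intro i hi σ T h0 h1 hr
    have hi' : i = Encodable.encode c := by omega
    subst hi'
    exact loop_bwd c x T σ y h0 h1 hr
  | succ n ih =>
    intro i hi σ T h0 h1 hr
    obtain ⟨T', -, hr'⟩ := inv_op (chart_lt _ i (by omega)) hr
    refine ih (i + 1) (by omega) _ T' ?_ ?_ hr'
    · rw [upd_ne (by decide)]
      exact h0
    · rw [upd_self, fS, h1]

/-- the flowchart of a code -/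
def flow (c : Code) : Flowchart F where
  Var := Fin 4
  Node := Fin (Encodable.encode c + 1) ⊕ Fin 3
  finVar := inferInstance
  finNode := inferInstance
  inp := 0
  first := .inl ⟨0, Nat.succ_pos _⟩
  instr := chart (Encodable.encode c)

lemma universal_F : Universal F := by
  intro f hf
  obtain ⟨c, rfl⟩ := Code.exists_code.1 hf
  refine ⟨flow c, fun x y => ⟨fun hy => ?_, ?_⟩⟩
  · obtain ⟨k, hk⟩ := Code.evaln_complete.1 hy
    obtain ⟨T, hT'⟩ := start_fwd c x y k (Option.mem_def.1 hk) (Encodable.encode c) 0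
      (Nat.zero_add _) (fun v => if v = 0 then x else 0) rfl rfl rfl
    refine ⟨T + 1, fun v : Fin 4 => if v = 0 then x else 0, T, rfl, ?_, rfl, hT'⟩
    intro v hv
    exact if_neg hv
  · rintro ⟨T, σ, T', h1, h2, -, hr⟩
    exact start_bwd c x y (Encodable.encode c) 0 (Nat.zero_add _) σ T' h1
      (h2 (1 : Fin 4) (show (1 : Fin 4) ≠ 0 by decide)) hr

end Un

open Un in
theorem stmU : StmU := by
  refine ⟨F, ?_, ?_, ?_, ?_, universal_F⟩
  · exact (Set.finite_singleton _).insert _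
  · exact Set.finite_singleton _
  · rintro f (rfl | rfl)
    · exact comp_fS
    · exact comp_fU
  · rintro p rfl
    exact comp_pT

end R556.FC
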