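import Pool.Agent.R556.FC.P
import Pool.Agent.R556.FC.Gate

/-! MP_091941_lc: for every `c` a finite universal interpretation which is gated at `c`
(the construction of helper967, file U.lean, with two more arguments). -/

set_option autoImplicit false

open Filter

namespace R556.FC

namespace Ug

open Nat.Partrec (Code)
open Pt

/-- the universal step-bounded evaluation, defined only if the gate is open -/
def ev (c : ℕ) (v : Fin 5 → ℕ) : Option ℕ :=
  if v 3 = 2 * v 4 ∧ c < v 4 then Code.evaln (v 2) (Denumerable.ofNat Code (v 0)) (v 1) else none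

/-- the value -/
def fU (c : ℕ) (v : Fin 5 → ℕ) : ℕ := (ev c v).getD 0

/-- the test -/
def pT (c : ℕ) (v : Fin 5 → ℕ) : Bool := (ev c v).isSome

/-- the interpretation -/
def F (c : ℕ) : Interp where
  funs := {⟨1, succ1⟩, ⟨5, fU c⟩}
  preds := {⟨5, pT c⟩}

lemma hS (c : ℕ) : (⟨1, succ1⟩ : Σ k : ℕ, (Fin k → ℕ) → ℕ) ∈ (F c).funs := Or.inl rfl

lemma hU (c : ℕ) : (⟨5, fU c⟩ : Σ k : ℕ, (Fin k → ℕ) → ℕ) ∈ (F c).funs := Or.inr rfl

lemma hT (c : ℕ) : (⟨5, pT c⟩ : Σ k : ℕ, (Fin k → ℕ) → Bool) ∈ (F c).preds := rfl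

lemma prim_app (n : ℕ) (i : Fin n) : Primrec fun v : Fin n → ℕ => v i :=
  Primrec.fin_app.comp Primrec.id (Primrec.const i)

lemma prim_ev (c : ℕ) : Primrec (ev c) := by
  have h := Code.primrec_evaln.comp (f := fun a : (ℕ × Code) × ℕ => Code.evaln a.1.1 a.1.2 a.2)
    (g := fun v : Fin 5 → ℕ => ((v 2, Denumerable.ofNat Code (v 0)), v 1))
    (((prim_app 5 2).pair ((Primrec.ofNat Code).comp (prim_app 5 0))).pair (prim_app 5 1))
  have hg : PrimrecPred fun v : Fin 5 → ℕ => v 3 = 2 * v 4 ∧ c < v 4 :=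
    PrimrecPred.and (Primrec.eq.comp (prim_app 5 3) (Primrec.nat_mul.comp (Primrec.const 2) (prim_app 5 4)))
      (Primrec.nat_lt.comp (Primrec.const c) (prim_app 5 4))
  exact Primrec.ite hg h (Primrec.const none)

lemma comp_fS : Computable succ1 := (Primrec.succ.comp (prim_app 1 0)).to_comp

lemma comp_fU (c : ℕ) : Computable (fU c) :=
  (Primrec.option_getD.comp (prim_ev c) (Primrec.const 0)).to_comp

lemma comp_pT (c : ℕ) : Computable (pT c) := (Primrec.option_isSome.comp (prim_ev c)).to_comp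

/-- the variable increased at the node `i` -/
def vi (c i : ℕ) : Fin 6 := if i < c + 1 then 4 else if i < 3 * c + 3 then 5 else 1

/-- The flowchart of the code number `e`. Variables: 0 = input, 1 = code, 2 = step bound,
3 = output, 4 = c + 1, 5 = 2 c + 2. -/
def chart (c e : ℕ) : Fin (3 * c + 3 + e + 1) ⊕ Fin 3 → Instr (F c) (Fin 6) (Fin (3 * c + 3 + e + 1) ⊕ Fin 3)
  | .inl i => if h : i.val < 3 * c + 3 + e then
      .op 1 succ1 (hS c) (fun _ => vi c i.val) (vi c i.val) (.inl ⟨i.val + 1, by omega⟩)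
    else .test 5 (pT c) (hT c) ![1, 0, 2, 5, 4] (.inr 0) (.inr 1)
  | .inr 0 => .op 5 (fU c) (hU c) ![1, 0, 2, 5, 4] 3 (.inr 2)
  | .inr 1 => .op 1 succ1 (hS c) (fun _ => 2) 2 (.inl ⟨3 * c + 3 + e, Nat.lt_succ_self _⟩)
  | .inr 2 => .halt 3

lemma chart_lt (c e i : ℕ) (h : i < 3 * c + 3 + e) : chart c e (.inl ⟨i, by omega⟩) =
    .op 1 succ1 (hS c) (fun _ => vi c i) (vi c i) (.inl ⟨i + 1, by omega⟩) := by
  simp only [chart]
  rw [dif_pos h]

lemma chart_loop (c e : ℕ) : chart c e (.inl ⟨3 * c + 3 + e, Nat.lt_succ_self _⟩) =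
    .test 5 (pT c) (hT c) ![1, 0, 2, 5, 4] (.inr 0) (.inr 1) := by
  simp only [chart]
  rw [dif_neg (lt_irrefl _)]

lemma vec_eq (σ : Fin 6 → ℕ) : (fun i => σ ((![1, 0, 2, 5, 4] : Fin 5 → Fin 6) i)) =
    ![σ 1, σ 0, σ 2, σ 5, σ 4] := by
  funext i
  fin_cases i <;> rfl

lemma ev_eq (d : ℕ) (c : Code) (x k : ℕ) :
    ev d ![Encodable.encode c, x, k, 2 * d + 2, d + 1] = Code.evaln k c x := by
  have h : ((![Encodable.encode c, x, k, 2 * d + 2, d + 1] : Fin 5 → ℕ) 3 =
      2 * (![Encodable.encode c, x, k, 2 * d + 2, d + 1] : Fin 5 → ℕ) 4 ∧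
      d < (![Encodable.encode c, x, k, 2 * d + 2, d + 1] : Fin 5 → ℕ) 4) := by
    constructor
    · show 2 * d + 2 = 2 * (d + 1)
      ring
    · show d < d + 1
      omega
  unfold ev
  rw [if_pos h]
  simp

/-- forward direction, the loop -/
lemma loop_fwd (d : ℕ) (c : Code) (x y : ℕ) (n : ℕ) : ∀ (j : ℕ) (σ : Fin 6 → ℕ), σ 0 = x →
    σ 1 = Encodable.encode c → σ 2 = j → σ 4 = d + 1 → σ 5 = 2 * d + 2 →
    Code.evaln (j + n) c x = some y →
    ∃ T, Run (chart d (Encodable.encode c))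
      (.inl ⟨3 * d + 3 + Encodable.encode c, Nat.lt_succ_self _⟩) σ y T := by
  induction n with
  | zero =>
    intro j σ h0 h1 h2 h4 h5 hy
    have e0 : ev d ![σ 1, σ 0, σ 2, σ 5, σ 4] = some y := by
      rw [h0, h1, h2, h4, h5, ev_eq]; exact hy
    refine ⟨1 + 1 + 1, Run.yes _ _ _ _ _ _ _ _ _ _ (chart_loop _ _) ?_ (Run.op' rfl ?_)⟩
    · rw [vec_eq]
      simp [pT, e0]
    · have h3 := Run.halt (I := chart d (Encodable.encode c)) (.inr 2)
        (upd σ 3 (fU d fun i => σ ((![1, 0, 2, 5, 4] : Fin 5 → Fin 6) i))) 3 rfl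
      rw [upd_self, vec_eq, fU, e0] at h3
      rw [vec_eq, fU, e0]
      exact h3
  | succ n ih =>
    intro j σ h0 h1 h2 h4 h5 hy
    cases hz : Code.evaln j c x with
    | some z =>
      have hzy : z = y := by
        have h3 := Code.evaln_mono (show j ≤ j + (n + 1) by omega) (Option.mem_def.2 hz)
        rw [Option.mem_def, hy] at h3
        exact (Option.some.inj h3).symm
      subst hzy
      have e0 : ev d ![σ 1, σ 0, σ 2, σ 5, σ 4] = some z := by
        rw [h0, h1, h2, h4, h5, ev_eq]; exact hz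
      refine ⟨1 + 1 + 1, Run.yes _ _ _ _ _ _ _ _ _ _ (chart_loop _ _) ?_ (Run.op' rfl ?_)⟩
      · rw [vec_eq]
        simp [pT, e0]
      · have h3 := Run.halt (I := chart d (Encodable.encode c)) (.inr 2)
          (upd σ 3 (fU d fun i => σ ((![1, 0, 2, 5, 4] : Fin 5 → Fin 6) i))) 3 rfl
        rw [upd_self, vec_eq, fU, e0] at h3
        rw [vec_eq, fU, e0]
        exact h3
    | none =>
      have e0 : ev d ![σ 1, σ 0, σ 2, σ 5, σ 4] = none := by
        rw [h0, h1, h2, h4, h5, ev_eq]; exact hz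
      obtain ⟨T, hT'⟩ := ih (j + 1) (upd σ 2 (succ1 fun _ => σ 2))
        (by rw [upd_ne (by decide)]; exact h0) (by rw [upd_ne (by decide)]; exact h1)
        (by rw [upd_self, succ1, h2]) (by rw [upd_ne (by decide)]; exact h4)
        (by rw [upd_ne (by decide)]; exact h5) (by rw [← hy]; congr 1; omega)
      refine ⟨T + 1 + 1, Run.no _ _ _ _ _ _ _ _ _ _ (chart_loop _ _) ?_ (Run.op' rfl hT')⟩
      rw [vec_eq]
      simp [pT, e0]

/-- backward direction, the loop -/
lemma loop_bwd (d : ℕ) (c : Code) (x : ℕ) (T : ℕ) : ∀ (σ : Fin 6 → ℕ) (y : ℕ), σ 0 = x →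
    σ 1 = Encodable.encode c → σ 4 = d + 1 → σ 5 = 2 * d + 2 → Run (chart d (Encodable.encode c))
      (.inl ⟨3 * d + 3 + Encodable.encode c, Nat.lt_succ_self _⟩) σ y T → y ∈ c.eval x := by
  induction T using Nat.strong_induction_on with
  | _ T ih =>
    intro σ y h0 h1 h4 h5 hr
    obtain ⟨T1, e1, (⟨hb, hr1⟩ | ⟨hb, hr1⟩)⟩ := inv_test (chart_loop _ _) hr
    · obtain ⟨T2, e2, hr2⟩ := inv_op (I := chart d (Encodable.encode c)) (q := .inr 0)
        (hf := hU d) (next := .inr 2) rfl hr1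
      obtain ⟨e3, -⟩ := inv_halt (I := chart d (Encodable.encode c)) (q := .inr 2) (out := 3)
        rfl hr2
      rw [upd_self, vec_eq, fU, h0, h1, h4, h5, ev_eq] at e3
      rw [vec_eq, pT, h0, h1, h4, h5, ev_eq] at hb
      obtain ⟨z, hz⟩ := Option.isSome_iff_exists.1 hb
      rw [hz] at e3
      rw [e3]
      exact Code.evaln_sound (Option.mem_def.2 hz)
    · obtain ⟨T2, e2, hr2⟩ := inv_op (I := chart d (Encodable.encode c)) (q := .inr 1)
        (hf := hS d) (next := .inl ⟨3 * d + 3 + Encodable.encode c, Nat.lt_succ_self _⟩) rfl hr1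
      refine ih T2 (by omega) _ y ?_ ?_ ?_ ?_ hr2
      · rw [upd_ne (by decide)]
        exact h0
      · rw [upd_ne (by decide)]
        exact h1
      · rw [upd_ne (by decide)]
        exact h4
      · rw [upd_ne (by decide)]
        exact h5

/-- the values after `i` steps of the initial phase -/
def Inv (d x i : ℕ) (σ : Fin 6 → ℕ) : Prop :=
  σ 0 = x ∧ σ 1 = i - (3 * d + 3) ∧ σ 2 = 0 ∧ σ 4 = min i (d + 1) ∧
    σ 5 = min (i - (d + 1)) (2 * d + 2)

lemma inv_step (d x i : ℕ) (σ : Fin 6 → ℕ) (h : Inv d x i σ) :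
    Inv d x (i + 1) (upd σ (vi d i) (succ1 fun _ => σ (vi d i))) := by
  obtain ⟨h0, h1, h2, h4, h5⟩ := h
  unfold vi
  split_ifs with a b
  · refine ⟨?_, ?_, ?_, ?_, ?_⟩
    · rw [upd_ne (by decide)]; exact h0
    · rw [upd_ne (by decide), h1]; omega
    · rw [upd_ne (by decide)]; exact h2
    · rw [upd_self, succ1, h4]; omega
    · rw [upd_ne (by decide), h5]; omega
  · refine ⟨?_, ?_, ?_, ?_, ?_⟩
    · rw [upd_ne (by decide)]; exact h0
    · rw [upd_ne (by decide), h1]; omega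
    · rw [upd_ne (by decide)]; exact h2
    · rw [upd_ne (by decide), h4]; omega
    · rw [upd_self, succ1, h5]; omega
  · refine ⟨?_, ?_, ?_, ?_, ?_⟩
    · rw [upd_ne (by decide)]; exact h0
    · rw [upd_self, succ1, h1]; omega
    · rw [upd_ne (by decide)]; exact h2
    · rw [upd_ne (by decide), h4]; omega
    · rw [upd_ne (by decide), h5]; omega

lemma start_fwd (d : ℕ) (c : Code) (x y k : ℕ) (hy : Code.evaln k c x = some y) (n : ℕ) :
    ∀ (i : ℕ) (hi : i + n = 3 * d + 3 + Encodable.encode c) (σ : Fin 6 → ℕ), Inv d x i σ →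
    ∃ T, Run (chart d (Encodable.encode c)) (.inl ⟨i, by omega⟩) σ y T := by
  induction n with
  | zero =>
    intro i hi σ h
    have hi' : i = 3 * d + 3 + Encodable.encode c := by omega
    subst hi'
    obtain ⟨h0, h1, h2, h4, h5⟩ := h
    exact loop_fwd d c x y k 0 σ h0 (by omega) h2 (by omega) (by omega)
      (by rw [Nat.zero_add]; exact hy)
  | succ n ih =>
    intro i hi σ h
    obtain ⟨T, hT'⟩ := ih (i + 1) (by omega) _ (inv_step d x i σ h)
    exact ⟨T + 1, Run.op' (chart_lt _ _ i (by omega)) hT'⟩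

lemma start_bwd (d : ℕ) (c : Code) (x y : ℕ) (n : ℕ) :
    ∀ (i : ℕ) (hi : i + n = 3 * d + 3 + Encodable.encode c) (σ : Fin 6 → ℕ) (T : ℕ), Inv d x i σ →
    Run (chart d (Encodable.encode c)) (.inl ⟨i, by omega⟩) σ y T → y ∈ c.eval x := by
  induction n with
  | zero =>
    intro i hi σ T h hr
    have hi' : i = 3 * d + 3 + Encodable.encode c := by omega
    subst hi'
    obtain ⟨h0, h1, h2, h4, h5⟩ := h
    exact loop_bwd d c x T σ y h0 (by omega) (by omega) (by omega) hr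
  | succ n ih =>
    intro i hi σ T h hr
    obtain ⟨T', -, hr'⟩ := inv_op (chart_lt _ _ i (by omega)) hr
    exact ih (i + 1) (by omega) _ T' (inv_step d x i σ h) hr'

/-- the flowchart of a code -/
def flow (d : ℕ) (c : Code) : Flowchart (F d) where
  Var := Fin 6
  Node := Fin (3 * d + 3 + Encodable.encode c + 1) ⊕ Fin 3
  finVar := inferInstance
  finNode := inferInstance
  inp := 0
  first := .inl ⟨0, Nat.succ_pos _⟩
  instr := chart d (Encodable.encode c)

lemma universal_F (d : ℕ) : Universal (F d) := by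
  intro f hf
  obtain ⟨c, rfl⟩ := Code.exists_code.1 hf
  refine ⟨flow d c, fun x y => ⟨fun hy => ?_, ?_⟩⟩
  · obtain ⟨k, hk⟩ := Code.evaln_complete.1 hy
    have hinv : Inv d x 0 (fun v : Fin 6 => if v = 0 then x else 0) :=
      ⟨rfl, by simp, rfl, by simp, by simp⟩
    obtain ⟨T, hT'⟩ := start_fwd d c x y k (Option.mem_def.1 hk) (3 * d + 3 + Encodable.encode c) 0
      (Nat.zero_add _) (fun v => if v = 0 then x else 0) hinv
    refine ⟨T + 1, fun v : Fin 6 => if v = 0 then x else 0, T, rfl, ?_, rfl, hT'⟩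
    intro v hv
    exact if_neg hv
  · rintro ⟨T, σ, T', h1, h2, -, hr⟩
    have z : ∀ v : Fin 6, v ≠ 0 → σ v = 0 := fun v hv => h2 v hv
    have hinv : Inv d x 0 σ :=
      ⟨h1, by rw [z 1 (by decide)]; omega, z 2 (by decide), by rw [z 4 (by decide)]; omega,
        by rw [z 5 (by decide)]; omega⟩
    exact start_bwd d c x y (3 * d + 3 + Encodable.encode c) 0 (Nat.zero_add _) σ T' hinv hr

lemma gated_F (d : ℕ) : Gated (F d) d := by
  constructor
  · rintro k f (h | h)
    · left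
      obtain ⟨rfl, h⟩ := Sigma.mk.inj_iff.1 h
      obtain rfl := eq_of_heq h
      exact ⟨0, fun w => rfl⟩
    · right
      obtain ⟨rfl, h⟩ := Sigma.mk.inj_iff.1 h
      obtain rfl := eq_of_heq h
      intro w
      by_cases hg : w 3 = 2 * w 4 ∧ d < w 4
      · exact Or.inr ⟨3, 4, hg⟩
      · left
        unfold fU ev
        rw [if_neg hg]
        rfl
  · rintro k p h w
    obtain ⟨rfl, h⟩ := Sigma.mk.inj_iff.1 h
    obtain rfl := eq_of_heq h
    by_cases hg : w 3 = 2 * w 4 ∧ d < w 4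
    · exact Or.inr ⟨3, 4, hg⟩
    · left
      unfold pT ev
      rw [if_neg hg]
      rfl

end Ug

/-- failure of invariance at every bound `t` with `2 ≤ t` almost everywhere which does not tend to
infinity, for a finite recursive interpretation -/
theorem neg_bounded (hD : StmD) (t : ℕ → ℕ) (h2 : ∀ᶠ x in atTop, 2 ≤ t x)
    (hb : ¬ Tendsto t atTop atTop) :
    ∃ F : Interp, F.funs.Finite ∧ F.preds.Finite ∧ (∀ f ∈ F.funs, Computable f.2) ∧
      (∀ p ∈ F.preds, Computable p.2) ∧ Universal F ∧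
      ∃ f g : ℕ → ℕ, Computable f ∧ Computable g ∧ f ∈ Cls F t ∧ (∀ᶠ x in atTop, f x = g x) ∧
        g ∉ Cls F t := by
  obtain ⟨d, hd⟩ := neg_of_gated hD t h2 hb
  refine ⟨Ug.F (d + 2), ?_, ?_, ?_, ?_, Ug.universal_F _, hd _ (Ug.gated_F _) (Ug.hS _)⟩
  · exact (Set.finite_singleton _).insert _
  · exact Set.finite_singleton _
  · rintro f (rfl | rfl)
    · exact Ug.comp_fS
    · exact Ug.comp_fU _
  · rintro p rfl
    exact Ug.comp_pT _

end R556.FC
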